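import Pool.Agent.Helper89.SLE.Energy

/-!
# The additive energy of a ball in `SL(2, ℤ)` is `O_ε (N ^ (4 + ε))`
-/

set_option autoImplicit false

namespace Pool.Agent.Results.MP_41f261_nt.EnergyBound

open Matrix Pool.Agent.Helper89.SLE

/-- The Euclidean norm of the vector of the four entries of `g ∈ SL(2, ℤ)`. -/
noncomputable def nrm (g : Matrix.SpecialLinearGroup (Fin 2) ℤ) : ℝ :=
  Real.sqrt (((g 0 0 : ℤ) : ℝ) ^ 2 + ((g 0 1 : ℤ) : ℝ) ^ 2 + ((g 1 0 : ℤ) : ℝ) ^ 2 +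
    ((g 1 1 : ℤ) : ℝ) ^ 2)

/-- The ball of radius `N` in `SL(2, ℤ)`. -/
def ball (N : ℝ) : Set (Matrix.SpecialLinearGroup (Fin 2) ℤ) := {g | nrm g ≤ N}

/-- The additive quadruples of the ball of radius `N`. -/
def quads (N : ℝ) : Set (Matrix.SpecialLinearGroup (Fin 2) ℤ × Matrix.SpecialLinearGroup (Fin 2) ℤ ×
    Matrix.SpecialLinearGroup (Fin 2) ℤ × Matrix.SpecialLinearGroup (Fin 2) ℤ) :=
  {q | q.1 ∈ ball N ∧ q.2.1 ∈ ball N ∧ q.2.2.1 ∈ ball N ∧ q.2.2.2 ∈ ball N ∧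
    (q.1 : Matrix (Fin 2) (Fin 2) ℤ) + (q.2.1 : Matrix (Fin 2) (Fin 2) ℤ) =
      (q.2.2.1 : Matrix (Fin 2) (Fin 2) ℤ) + (q.2.2.2 : Matrix (Fin 2) (Fin 2) ℤ)}

theorem inB_of_mem {N : ℝ} (hN : 1 ≤ N) {g : Matrix.SpecialLinearGroup (Fin 2) ℤ}
    (hg : g ∈ ball N) : InB ⌊N⌋₊ (g : Matrix (Fin 2) (Fin 2) ℤ) := by
  refine ⟨g.2, fun i j => ?_⟩
  have h0 : nrm g ≤ N := hg
  unfold nrm at h0
  have hN0 : 0 ≤ N := by linarith
  have h1 := (Real.sqrt_le_left hN0).mp h0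
  have h2 : (((g i j : ℤ) : ℝ)) ^ 2 ≤ N ^ 2 := by
    refine le_trans ?_ h1
    have a1 := sq_nonneg ((g 0 0 : ℤ) : ℝ)
    have a2 := sq_nonneg ((g 0 1 : ℤ) : ℝ)
    have a3 := sq_nonneg ((g 1 0 : ℤ) : ℝ)
    have a4 := sq_nonneg ((g 1 1 : ℤ) : ℝ)
    fin_cases i <;> fin_cases j <;> simp <;> linarith
  have h3 : |((g i j : ℤ) : ℝ)| ≤ N := abs_le_of_sq_le_sq h2 hN0
  have h4 : (((g i j : ℤ).natAbs : ℕ) : ℝ) ≤ N := by
    rw [Nat.cast_natAbs, Int.cast_abs]; exact h3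
  have h5 : (g i j : ℤ).natAbs ≤ ⌊N⌋₊ := Nat.le_floor h4
  rw [Int.abs_eq_natAbs]
  exact_mod_cast h5

theorem finite_inB (L : ℕ) : {g : M2 | InB L g}.Finite := by
  have h : (Set.univ.pi (fun _ : Fin 2 => Set.univ.pi
      (fun _ : Fin 2 => Set.Icc (-(L : ℤ)) L))).Finite :=
    Set.Finite.pi fun _ => Set.Finite.pi fun _ => Set.finite_Icc _ _
  refine h.subset ?_
  intro g hg i _ j _
  exact abs_le.mp (hg.2 i j)

/-- **The answer to the question**: the additive energy of the ball of radius `N` in `SL(2, ℤ)` is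
`O_ε (N ^ (4 + ε))`. -/
theorem result : ∀ ε : ℝ, 0 < ε → ∃ C : ℝ, ∀ N : ℝ, 1 ≤ N →
    (quads N).Finite ∧ ((quads N).ncard : ℝ) ≤ C * N ^ (4 + ε) := by
  classical
  intro ε hε
  obtain ⟨C, hC, hmain⟩ := energy_bound ε hε
  refine ⟨C, fun N hN => ?_⟩
  set L : ℕ := ⌊N⌋₊ with hL
  have hL1 : 1 ≤ L := Nat.one_le_floor_iff N |>.mpr hN
  have hLN : (L : ℝ) ≤ N := Nat.floor_le (by linarith)
  let f : Matrix.SpecialLinearGroup (Fin 2) ℤ × Matrix.SpecialLinearGroup (Fin 2) ℤ ×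
    Matrix.SpecialLinearGroup (Fin 2) ℤ × Matrix.SpecialLinearGroup (Fin 2) ℤ →
      M2 × M2 × M2 × M2 := fun q => (q.1, q.2.1, q.2.2.1, q.2.2.2)
  have hf : Function.Injective f := by
    intro q r h
    have h1 : (q.1 : M2) = r.1 := congrArg (fun v => v.1) h
    have h2 : (q.2.1 : M2) = r.2.1 := congrArg (fun v => v.2.1) h
    have h3 : (q.2.2.1 : M2) = r.2.2.1 := congrArg (fun v => v.2.2.1) h
    have h4 : (q.2.2.2 : M2) = r.2.2.2 := congrArg (fun v => v.2.2.2) h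
    exact Prod.ext (Subtype.ext h1) (Prod.ext (Subtype.ext h2)
      (Prod.ext (Subtype.ext h3) (Subtype.ext h4)))
  have himg : ∀ q ∈ quads N, Quad L (f q) := by
    intro q hq
    obtain ⟨h1, h2, h3, h4, h5⟩ := hq
    exact ⟨inB_of_mem hN h1, inB_of_mem hN h2, inB_of_mem hN h3, inB_of_mem hN h4, h5⟩
  have hfin' : (f '' quads N).Finite := by
    have hB := finite_inB L
    refine (hB.prod (hB.prod (hB.prod hB))).subset ?_
    rintro _ ⟨q, hq, rfl⟩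
    have := himg q hq
    exact ⟨this.b1, this.b2, this.b3, this.b4⟩
  have hfin : (quads N).Finite := hfin'.of_finite_image hf.injOn
  refine ⟨hfin, ?_⟩
  have hcard : (quads N).ncard = hfin'.toFinset.card := by
    rw [← Set.ncard_image_of_injective _ hf, Set.ncard_eq_toFinset_card _ hfin']
  rw [hcard]
  apply hmain N L hL1 hLN
  intro q hq
  rw [Set.Finite.mem_toFinset] at hq
  obtain ⟨r, hr, rfl⟩ := hq
  exact himg r hr

end Pool.Agent.Results.MP_41f261_nt.EnergyBound
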